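import Pool.Agent.V11242.TT.Force

/-!
# MP_c87228_lc: a σ-ideal all of whose generic ultrafilters are Tukey-top

Let `W` be an ultrafilter on a countable set `S` with continuum many members no infinitely many
of which contain a common member of `W`, and let `I` be the Fubini product of the dual ideal of
`W` and the ideal of finite sets, on `X = S × ω`. Then `I` is a σ-ideal, the forcing `P(X)/I` is
atomless, and every condition forces that the generic ultrafilter is Tukey-top.

The forcing language is the one of `Pool.Agent.Helper669.Forcing`: a sentence is the set of the
conditions which force it; `fnot`, `fand`, `fall` are the usual clauses of the definition of forcing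
and `fimp`, `fex` are defined from them classically; names for subsets of a ground model set are
maps to sets of conditions, and `meets N` says that the generic filter meets `N`. Since no new
subsets of `ℕ` are added, the ultrafilters on `ℕ` of the extension, and the maps and cofinal sets
of the definition of the Tukey order, are subsets of ground model sets.
-/

set_option autoImplicit false

namespace Pool.Agent.Results.MP_c87228_lc.TukeyTopGeneric

open Pool.Agent.V11242.TT

theorem result : ∃ (X : Type) (_ : Countable X) (I : Set (Set X)) (hI : IsIdealOn I),
    IsSigmaIdeal I ∧ IsAtomless I ∧ Nonempty (Quo I hI) ∧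
    ∀ p : Quo I hI, p ∈ NoNewSubsets (Quo I hI) ∧ p ∈ IsUltraHolds (gen I hI) ∧
      p ∈ TukeyTopHolds (gen I hI) := by
  obtain ⟨W, h1, h2, h3⟩ := exists_top
  refine ⟨SS × ℕ, inferInstance, IW W, isIdealOn_IW W, isSigmaIdeal_IW W h1, isAtomless_IW W,
    ⟨⟨Set.univ, (isIdealOn_IW W).univ_notMem⟩⟩, fun p => ⟨?_, gen_ultra p, tukeyTop h2 h3 p⟩⟩
  exact noNewSubsets_of (quo_closed (isSigmaIdeal_IW W h1)) p

end Pool.Agent.Results.MP_c87228_lc.TukeyTopGeneric
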